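import Pool.Agent.W544.FF.Defs

set_option autoImplicit false

/-!
# The first fundamental theorem for products of real orthogonal groups: the key step
-/

open Matrix Finset Module

namespace Pool.Agent.W462.FF

open Pool.Agent.W544.PG Pool.Agent.W544.FF

noncomputable section

variable {n r k : ℕ}

/-- pairs of indices of the same colour -/
abbrev XX (c : Fin n → Fin r) : Type := {p : Fin n × Fin n // c p.1 = c p.2}

/-- the block-diagonal matrix with given entries -/
def AX (c : Fin n → Fin r) (x : XX c → ℝ) : Matrix (Fin n) (Fin n) ℝ :=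
  Matrix.of fun a b => if h : c a = c b then x ⟨(a, b), h⟩ else 0

lemma AX_BD (c : Fin n → Fin r) (x : XX c → ℝ) : BD c (AX c x) := by
  intro a b h
  simp [AX, h]

lemma AX_apply (c : Fin n → Fin r) (x : XX c → ℝ) (p : XX c) : AX c x p.1.1 p.1.2 = x p := by
  obtain ⟨⟨a, b⟩, h⟩ := p
  simp only [AX, Matrix.of_apply]
  rw [dif_pos h]

lemma sumX (c : Fin n → Fin r) (F : (Fin k → Fin n × Fin n) → ℝ)
    (hF : ∀ p, (∃ j, c (p j).1 ≠ c (p j).2) → F p = 0) :
    ∑ I : Fin k → XX c, F (fun j => (I j).1) = ∑ p, F p := by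
  apply Finset.sum_of_injOn (fun (I : Fin k → XX c) (j : Fin k) => (I j).1)
  · intro I _ I' _ h
    funext j
    exact Subtype.ext (congrFun h j)
  · intro I _
    simp
  · intro p _ hp
    apply hF
    by_contra hcon
    push Not at hcon
    exact hp ⟨fun j => ⟨p j, hcon j⟩, by simp, rfl⟩
  · intro I _
    rfl

lemma sumP (F : (Fin k → Fin n × Fin n) → ℝ) :
    ∑ p, F p = ∑ K : Fin k → Fin n, ∑ J : Fin k → Fin n, F (fun j => (K j, J j)) := by
  have h1 : ∑ p, F p = ∑ q : (Fin k → Fin n) × (Fin k → Fin n), F (fun j => (q.1 j, q.2 j)) :=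
    Fintype.sum_equiv (Equiv.arrowProdEquivProdArrow (Fin k) (fun _ => Fin n)
      (fun _ => Fin n)) _ _ fun p => rfl
  rw [h1, Fintype.sum_prod_type]

lemma genO_eq (c : Fin n → Fin r) (σ : Fin k → Fin k) (f : Fin k → Fin r) (hM : Mat k σ)
    (J : Fin k → Fin n) : genO ℝ c σ f J =
      if (∀ j, c (J j) = f j) ∧ ∀ j, J (σ j) = J j then 1 else 0 := by
  unfold genO
  rw [Finset.prod_ite_zero]
  have h : (∀ j ∈ univ.filter (fun j => j < σ j), J j = J (σ j)) ↔ ∀ j, J (σ j) = J j := by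
    constructor
    · intro h j
      rcases lt_trichotomy j (σ j) with h1 | h1 | h1
      · exact (h j (by simpa using h1)).symm
      · exact absurd h1.symm (hM.2 j)
      · have := h (σ j) (by simpa [hM.1 j] using h1)
        rw [hM.1 j] at this
        exact this
    · intro h j _
      exact (h j).symm
  by_cases h1 : ∀ j, c (J j) = f j
  · by_cases h2 : ∀ j, J (σ j) = J j
    · rw [if_pos h1, if_pos (h.2 h2), if_pos ⟨h1, h2⟩]
      simp
    · have h4 : ¬ ∀ j ∈ univ.filter (fun j => j < σ j), J j = J (σ j) := fun h3 => h2 (h.1 h3)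
      have h5 : ¬ ((∀ j, c (J j) = f j) ∧ ∀ j, J (σ j) = J j) := fun h3 => h2 h3.2
      rw [if_neg h4, if_neg h5, mul_zero]
  · have h5 : ¬ ((∀ j, c (J j) = f j) ∧ ∀ j, J (σ j) = J j) := fun h3 => h1 h3.1
    rw [if_neg h1, if_neg h5, zero_mul]

lemma sum_genO_zero (c : Fin n → Fin r) (σ : Fin k → Fin k) (hM : Mat k σ)
    (K J : Fin k → Fin n) (h : ∃ j, c (K j) ≠ c (J j)) :
    ∑ f, genO ℝ c σ f K * genO ℝ c σ f J = 0 := by
  apply Finset.sum_eq_zero
  intro f _
  rw [genO_eq c σ f hM, genO_eq c σ f hM]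
  obtain ⟨j, hj⟩ := h
  by_cases h1 : (∀ j, c (K j) = f j) ∧ ∀ j, K (σ j) = K j
  · have h2 : ¬ ((∀ j, c (J j) = f j) ∧ ∀ j, J (σ j) = J j) := by
      intro h2
      exact hj ((h1.1 j).trans (h2.1 j).symm)
    rw [if_neg h2, mul_zero]
  · rw [if_neg h1, zero_mul]

lemma sum_genO (c : Fin n → Fin r) (σ : Fin k → Fin k) (hM : Mat k σ)
    (K J : Fin k → Fin n) (h : ∀ j, c (K j) = c (J j)) :
    ∑ f, genO ℝ c σ f K * genO ℝ c σ f J =
      if (∀ j, K (σ j) = K j) ∧ ∀ j, J (σ j) = J j then 1 else 0 := by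
  rw [Finset.sum_eq_single (fun j => c (K j))]
  · rw [genO_eq c σ _ hM, genO_eq c σ _ hM]
    by_cases h1 : ∀ j, K (σ j) = K j
    · have e1 : (∀ j, c (K j) = (fun j => c (K j)) j) ∧ ∀ j, K (σ j) = K j := ⟨fun _ => rfl, h1⟩
      by_cases h2 : ∀ j, J (σ j) = J j
      · have e2 : (∀ j, c (J j) = (fun j => c (K j)) j) ∧ ∀ j, J (σ j) = J j :=
          ⟨fun j => (h j).symm, h2⟩
        rw [if_pos e1, if_pos e2, if_pos ⟨h1, h2⟩, mul_one]
      · have e2 : ¬ ((∀ j, c (J j) = (fun j => c (K j)) j) ∧ ∀ j, J (σ j) = J j) :=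
          fun h3 => h2 h3.2
        have e3 : ¬ ((∀ j, K (σ j) = K j) ∧ ∀ j, J (σ j) = J j) := fun h3 => h2 h3.2
        rw [if_neg e2, if_neg e3, mul_zero]
    · have e1 : ¬ ((∀ j, c (K j) = (fun j => c (K j)) j) ∧ ∀ j, K (σ j) = K j) :=
        fun h3 => h1 h3.2
      have e3 : ¬ ((∀ j, K (σ j) = K j) ∧ ∀ j, J (σ j) = J j) := fun h3 => h1 h3.1
      rw [if_neg e1, if_neg e3, zero_mul]
  · intro f _ hf
    rw [genO_eq c σ f hM, if_neg, zero_mul]
    rintro ⟨h1, -⟩
    exact hf (funext fun j => (h1 j).symm)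
  · intro h
    exact absurd (mem_univ _) h

lemma pull_lin_sub (A : Matrix (Fin n) (Fin n) ℝ) (s t : (Fin k → Fin n) → ℝ) :
    pull A (s - t) = pull A s - pull A t := by
  funext J
  simp only [pull, Pi.sub_apply, mul_sub, Finset.sum_sub_distrib]

lemma pull_lin_add (A : Matrix (Fin n) (Fin n) ℝ) (s t : (Fin k → Fin n) → ℝ) :
    pull A (s + t) = pull A s + pull A t := by
  funext J
  simp only [pull, Pi.add_apply, mul_add, Finset.sum_add_distrib]

lemma pull_lin_smul (A : Matrix (Fin n) (Fin n) ℝ) (a : ℝ) (t : (Fin k → Fin n) → ℝ) :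
    pull A (a • t) = a • pull A t := by
  funext J
  simp only [pull, Pi.smul_apply, smul_eq_mul, Finset.mul_sum]
  refine Finset.sum_congr rfl fun K _ => ?_
  ring

lemma pull_id (t : (Fin k → Fin n) → ℝ) : pull (1 : Matrix (Fin n) (Fin n) ℝ) t = t := by
  funext J
  simp only [pull]
  rw [Finset.sum_eq_single J]
  · simp
  · intro K _ hK
    obtain ⟨j, hj⟩ : ∃ j, K j ≠ J j := by
      by_contra h
      push Not at h
      exact hK (funext h)
    rw [Finset.prod_eq_zero (mem_univ j) (by simp [hj]), zero_mul]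
  · intro h
    exact absurd (mem_univ _) h

lemma quad (c : Fin n → Fin r) (t : (Fin k → Fin n) → ℝ) (x : XX c → ℝ) :
    ∑ J, t J * pull (AX c x) t J =
      ∑ I : Fin k → XX c, (t (fun j => (I j).1.2) * t (fun j => (I j).1.1)) *
        ∏ j, x (I j) := by
  have h1 := sumX (k := k) c (fun p => (t (fun j => (p j).2) * t (fun j => (p j).1)) *
    ∏ j, AX c x (p j).1 (p j).2) (by
      rintro p ⟨j, hj⟩
      rw [Finset.prod_eq_zero (mem_univ j) (AX_BD c x _ _ hj), mul_zero])
  have h2 : ∑ I : Fin k → XX c, (t (fun j => (I j).1.2) * t (fun j => (I j).1.1)) *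
        ∏ j, x (I j) = ∑ I : Fin k → XX c, (t (fun j => (I j).1.2) * t (fun j => (I j).1.1)) *
        ∏ j, AX c x (I j).1.1 (I j).1.2 := by
    refine Finset.sum_congr rfl fun I _ => ?_
    congr 1
    refine Finset.prod_congr rfl fun j _ => ?_
    rw [AX_apply]
  rw [h2, h1, sumP, Finset.sum_comm]
  refine Finset.sum_congr rfl fun J _ => ?_
  simp only [pull]
  rw [Finset.mul_sum]
  refine Finset.sum_congr rfl fun K _ => ?_
  ring

/-- (ONB) -/
theorem onb (hgau : S_gau) (hpos : S_pos) (hgin : S_gin) : S_onb := by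
  intro n r k c t ht
  set M : Submodule ℝ ((Fin k → Fin n) → ℝ) :=
    Submodule.span ℝ {g | ∃ σ f, Mat k σ ∧ g = genO ℝ c σ f} with hMdef
  let e : EuclideanSpace ℝ (Fin k → Fin n) ≃ₗ[ℝ] ((Fin k → Fin n) → ℝ) :=
    WithLp.linearEquiv 2 ℝ ((Fin k → Fin n) → ℝ)
  let M' : Submodule ℝ (EuclideanSpace ℝ (Fin k → Fin n)) := M.comap e.toLinearMap
  obtain ⟨m, hm, z, hz, hmz⟩ := M'.exists_add_mem_mem_orthogonal (e.symm t)
  have hm' : e m ∈ M := hm
  have ht' : t = e m + e z := by
    rw [← map_add, ← hmz, LinearEquiv.apply_symm_apply]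
  -- invariance of elements of M
  have hinvM : ∀ g ∈ M, InvO c g := by
    intro g hg R hR hRc
    induction hg using Submodule.span_induction with
    | mem x hx =>
      obtain ⟨σ, f, hσ, rfl⟩ := hx
      exact hgin n r k c σ f hσ R hR hRc
    | zero =>
      funext J
      simp [pull]
    | add x y _ _ hx hy => rw [pull_lin_add, hx, hy]
    | smul a x _ hx => rw [pull_lin_smul, hx]
  have hinv : InvO c (e z) := by
    have h1 : e z = t - e m := by rw [ht']; abel
    intro R hR hRc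
    rw [h1, pull_lin_sub, ht R hR hRc, hinvM _ hm' R hR hRc]
  -- orthogonality
  have horth : ∀ σ f, Mat k σ → ∑ J, e z J * genO ℝ c σ f J = 0 := by
    intro σ f hσ
    have h1 : e.symm (genO ℝ c σ f) ∈ M' := by
      show e (e.symm (genO ℝ c σ f)) ∈ M
      rw [LinearEquiv.apply_symm_apply]
      exact Submodule.subset_span ⟨σ, f, hσ, rfl⟩
    have h2 := (Submodule.mem_orthogonal M' z).1 hz _ h1
    rw [PiLp.inner_apply] at h2
    have h3 : ∑ x, z.ofLp x * (e.symm (genO ℝ c σ f)).ofLp x = 0 := by simpa using h2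
    exact h3
  -- the Gaussian argument
  by_cases hz0 : e z = 0
  · rw [ht', hz0, add_zero]
    exact hm'
  exfalso
  have hpos1 : ∀ x : XX c → ℝ, 0 ≤ ∑ I : Fin k → XX c,
      (e z (fun j => (I j).1.2) * e z (fun j => (I j).1.1)) * ∏ j, x (I j) := by
    intro x
    rw [← quad]
    exact hpos n r k c (e z) hinv (AX c x) (AX_BD c x)
  have hpos2 : ∃ x : XX c → ℝ, 0 < ∑ I : Fin k → XX c,
      (e z (fun j => (I j).1.2) * e z (fun j => (I j).1.1)) * ∏ j, x (I j) := by
    refine ⟨fun p => if p.1.1 = p.1.2 then 1 else 0, ?_⟩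
    refine lt_of_lt_of_eq ?_ (quad c (e z) (fun p => if p.1.1 = p.1.2 then 1 else 0))
    have hA : AX c (fun p => if p.1.1 = p.1.2 then 1 else 0) = 1 := by
      ext a b
      simp only [AX, Matrix.of_apply, Matrix.one_apply]
      by_cases h : a = b
      · subst h
        simp
      · simp [h]
    rw [hA, pull_id]
    obtain ⟨J, hJ⟩ : ∃ J, e z J ≠ 0 := by
      by_contra h
      push Not at h
      exact hz0 (funext h)
    exact Finset.sum_pos' (fun J _ => mul_self_nonneg _) ⟨J, mem_univ _, mul_self_pos.2 hJ⟩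
  have hmain := hgau (XX c) k (fun I => e z (fun j => (I j).1.2) * e z (fun j => (I j).1.1))
    hpos1 hpos2
  refine absurd hmain (not_lt.2 (le_of_eq ?_))
  have hw : ∀ I : Fin k → XX c, wick k I = ∑ σ : Fin k → Fin k,
      if (∀ j, σ (σ j) = j) ∧ (∀ j, σ j ≠ j) ∧ ∀ j, I (σ j) = I j then (1 : ℝ) else 0 := by
    intro I
    unfold wick
    rw [Finset.sum_boole]
  simp only [hw, Finset.mul_sum]
  rw [Finset.sum_comm]
  apply Finset.sum_eq_zero
  intro σ _
  by_cases hσ : Mat k σ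
  · have h1 := sumX (k := k) c (fun p => (e z (fun j => (p j).2) * e z (fun j => (p j).1)) *
      ∑ f, genO ℝ c σ f (fun j => (p j).1) * genO ℝ c σ f (fun j => (p j).2)) (by
        rintro p hp
        rw [sum_genO_zero c σ hσ _ _ hp, mul_zero])
    have h2 : ∀ I : Fin k → XX c,
        (e z (fun j => (I j).1.2) * e z (fun j => (I j).1.1)) *
        (if (∀ j, σ (σ j) = j) ∧ (∀ j, σ j ≠ j) ∧ ∀ j, I (σ j) = I j then (1 : ℝ) else 0) =
        (e z (fun j => (I j).1.2) * e z (fun j => (I j).1.1)) *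
        ∑ f, genO ℝ c σ f (fun j => (I j).1.1) * genO ℝ c σ f (fun j => (I j).1.2) := by
      intro I
      congr 1
      rw [sum_genO c σ hσ _ _ (fun j => (I j).2)]
      refine if_congr ?_ rfl rfl
      constructor
      · rintro ⟨-, -, h⟩
        exact ⟨fun j => by rw [h j], fun j => by rw [h j]⟩
      · rintro ⟨h3, h4⟩
        exact ⟨hσ.1, hσ.2, fun j => Subtype.ext (Prod.ext (h3 j) (h4 j))⟩
    rw [Finset.sum_congr rfl fun I _ => h2 I, h1, sumP]
    have h3 : ∀ K J : Fin k → Fin n,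
        (e z J * e z K) * ∑ f, genO ℝ c σ f K * genO ℝ c σ f J =
        ∑ f, (e z K * genO ℝ c σ f K) * (e z J * genO ℝ c σ f J) := by
      intro K J
      rw [Finset.mul_sum]
      refine Finset.sum_congr rfl fun f _ => ?_
      ring
    calc ∑ K : Fin k → Fin n, ∑ J : Fin k → Fin n,
          (e z (fun j => J j) * e z (fun j => K j)) *
            ∑ f, genO ℝ c σ f (fun j => K j) * genO ℝ c σ f (fun j => J j)
        = ∑ K : Fin k → Fin n, ∑ J : Fin k → Fin n,
          ∑ f, (e z K * genO ℝ c σ f K) * (e z J * genO ℝ c σ f J) := by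
          refine Finset.sum_congr rfl fun K _ => Finset.sum_congr rfl fun J _ => ?_
          exact h3 K J
      _ = ∑ f, ∑ K : Fin k → Fin n, ∑ J : Fin k → Fin n,
          (e z K * genO ℝ c σ f K) * (e z J * genO ℝ c σ f J) := by
          exact (Finset.sum_congr rfl fun K _ => Finset.sum_comm).trans Finset.sum_comm
      _ = 0 := by
          apply Finset.sum_eq_zero
          intro f _
          rw [← Finset.sum_mul_sum, horth σ f hσ, zero_mul]
  · apply Finset.sum_eq_zero
    intro I _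
    rw [if_neg, mul_zero]
    rintro ⟨h1, h2, -⟩
    exact hσ ⟨h1, h2⟩

end

end Pool.Agent.W462.FF
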